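import Pool.Agent.H16.Flat.FrameAlg

/-! # Fermi charts, part A: bound for the Jacobi field, smoothness, partial derivatives (helper16) -/

namespace H65.Flat

open MeasureTheory Set Filter

variable (P : Pre2)

/-- `J ≥ 1` for all `y` when the curvature is nonpositive -/
theorem Pre2.one_le_J (hK : ∀ p, curv P.U p ≤ 0) (v : T) (y : ℝ) : 1 ≤ P.J v y := by
  set g : ℝ → ℝ := fun y => P.J v y * P.J1 v y with hgdef
  have hg : ∀ y, HasDerivAt g (P.J1 v y * P.J1 v y
      + P.J v y * (-curv P.U (bp (P.Φ y v)) * P.J v y)) y :=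
    fun y => (P.J_deriv v y).mul (P.J1_deriv v y)
  have hmono : Monotone g := by
    apply monotone_of_deriv_nonneg (fun y => (hg y).differentiableAt)
    intro y
    rw [(hg y).deriv]
    have h1 := hK (bp (P.Φ y v))
    have h2 : 0 ≤ -curv P.U (bp (P.Φ y v)) * (P.J v y * P.J v y) :=
      mul_nonneg (by linarith) (mul_self_nonneg _)
    nlinarith [mul_self_nonneg (P.J1 v y)]
  have g0 : g 0 = 0 := by simp [hgdef, P.J1_zero]
  have hh : ∀ y, HasDerivAt (fun y => P.J v y ^ 2) (2 * g y) y := by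
    intro y
    have := (P.J_deriv v y).pow 2
    refine this.congr_deriv ?_
    simp only [hgdef]
    ring
  have hcont : Continuous (P.J v) :=
    continuous_iff_continuousAt.2 fun y => (P.J_deriv v y).continuousAt
  have h1 : ∀ y, 1 ≤ P.J v y ^ 2 := by
    intro y
    have h00 : P.J v 0 ^ 2 = 1 := by rw [P.J_zero]; norm_num
    rw [← h00]
    rcases le_total 0 y with hy | hy
    · have hm : MonotoneOn (fun y => P.J v y ^ 2) (Ici 0) := by
        apply monotoneOn_of_deriv_nonneg (convex_Ici 0) (by fun_prop)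
          (fun y _ => (hh y).differentiableAt.differentiableWithinAt)
        intro y hy
        rw [interior_Ici] at hy
        rw [(hh y).deriv]
        have := hmono (le_of_lt hy)
        rw [g0] at this
        linarith
      exact hm (mem_Ici.2 le_rfl) (mem_Ici.2 hy) hy
    · have hm : AntitoneOn (fun y => P.J v y ^ 2) (Iic 0) := by
        apply antitoneOn_of_deriv_nonpos (convex_Iic 0) (by fun_prop)
          (fun y _ => (hh y).differentiableAt.differentiableWithinAt)
        intro y hy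
        rw [interior_Iic] at hy
        rw [(hh y).deriv]
        have := hmono (le_of_lt hy)
        rw [g0] at this
        linarith
      exact hm (mem_Iic.2 hy) (mem_Iic.2 le_rfl) hy
  by_contra hlt
  push Not at hlt
  have hneg : P.J v y < 0 := by nlinarith [h1 y]
  have hmem : (0 : ℝ) ∈ uIcc (P.J v 0) (P.J v y) := by
    rw [P.J_zero, mem_uIcc]
    right
    exact ⟨hneg.le, zero_le_one⟩
  obtain ⟨z, _, hz⟩ := intermediate_value_uIcc hcont.continuousOn hmem
  have := h1 z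
  rw [hz] at this
  norm_num at this

/-- joint smoothness of the Fermi chart -/
theorem Pre2.psi_smooth : ContDiff ℝ (⊤ : ℕ∞) fun q : T × T => Psi P.Φ q.1 q.2 := by
  have h1 := P.Φ_smooth
  have a1 : ContDiff ℝ (⊤ : ℕ∞) fun q : T × T => P.Φ q.2.1 q.1 :=
    h1.comp (f := fun q : T × T => (q.2.1, q.1)) (by fun_prop)
  have a2 : ContDiff ℝ (⊤ : ℕ∞) fun q : T × T => rot (Real.pi / 2) (P.Φ q.2.1 q.1) :=
    rot_smooth.comp (f := fun q : T × T => (Real.pi / 2, P.Φ q.2.1 q.1)) (by fun_prop)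
  have a3 : ContDiff ℝ (⊤ : ℕ∞) fun q : T × T =>
      P.Φ q.2.2.1 (rot (Real.pi / 2) (P.Φ q.2.1 q.1)) :=
    h1.comp (f := fun q : T × T => (q.2.2.1, rot (Real.pi / 2) (P.Φ q.2.1 q.1))) (by fun_prop)
  exact rot_smooth.comp (f := fun q : T × T => (q.2.2.2 - Real.pi / 2,
    P.Φ q.2.2.1 (rot (Real.pi / 2) (P.Φ q.2.1 q.1)))) (by fun_prop)

theorem Pre2.psi_smooth' (u : T) : ContDiff ℝ (⊤ : ℕ∞) (Psi P.Φ u) :=
  P.psi_smooth.comp (f := fun p : T => (u, p)) (by fun_prop)

theorem Pre2.flow_differentiable (t : ℝ) : Differentiable ℝ (P.Φ t) := by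
  have : ContDiff ℝ (⊤ : ℕ∞) (P.Φ t) := P.Φ_smooth.comp (f := fun p : T => (t, p)) (by fun_prop)
  exact this.differentiable (by simp)

/-- partial derivatives of the Fermi chart -/
theorem Pre2.psi_hasFDerivAt (u p : T) : HasFDerivAt (Psi P.Φ u) (fderiv ℝ (Psi P.Φ u) p) p ∧
    fderiv ℝ (Psi P.Φ u) p (1, 0, 0)
      = (P.J (rot (Real.pi / 2) (P.Φ p.1 u)) p.2.1 * Real.cos p.2.2) • fieldX P.U (Psi P.Φ u p)
        - (P.J (rot (Real.pi / 2) (P.Φ p.1 u)) p.2.1 * Real.sin p.2.2) • fieldH P.U (Psi P.Φ u p)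
        - P.J1 (rot (Real.pi / 2) (P.Φ p.1 u)) p.2.1 • fieldV ∧
    fderiv ℝ (Psi P.Φ u) p (0, 1, 0)
      = Real.sin p.2.2 • fieldX P.U (Psi P.Φ u p) + Real.cos p.2.2 • fieldH P.U (Psi P.Φ u p) ∧
    fderiv ℝ (Psi P.Φ u) p (0, 0, 1) = fieldV := by
  have hd : HasFDerivAt (Psi P.Φ u) (fderiv ℝ (Psi P.Φ u) p) p :=
    ((P.psi_smooth' u).differentiable (by simp)).differentiableAt.hasFDerivAt
  obtain ⟨t, y, φ⟩ := p
  set c : T := P.Φ y (rot (Real.pi / 2) (P.Φ t u)) with hc
  have hPsi : Psi P.Φ u (t, y, φ) = rot (φ - Real.pi / 2) c := rfl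
  have hcd : c = rot (Real.pi / 2 - φ) (Psi P.Φ u (t, y, φ)) := by
    rw [hPsi, rot_rot]
    have : Real.pi / 2 - φ + (φ - Real.pi / 2) = 0 := by ring
    rw [this, rot_zero]
  have hXc : fieldX P.U c = Real.sin φ • fieldX P.U (Psi P.Φ u (t, y, φ))
      + Real.cos φ • fieldH P.U (Psi P.Φ u (t, y, φ)) := by
    rw [hcd, fieldX_rot, Real.cos_pi_div_two_sub, Real.sin_pi_div_two_sub]
  have hHc : fieldH P.U c = -Real.cos φ • fieldX P.U (Psi P.Φ u (t, y, φ))
      + Real.sin φ • fieldH P.U (Psi P.Φ u (t, y, φ)) := by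
    rw [hcd, fieldH_rot, Real.cos_pi_div_two_sub, Real.sin_pi_div_two_sub]
  refine ⟨hd, ?_, ?_, ?_⟩
  · -- derivative in `t`
    have hline : HasDerivAt (fun s : ℝ => ((s, y, φ) : T)) (1, 0, 0) t :=
      (hasDerivAt_id t).prodMk ((hasDerivAt_const t y).prodMk (hasDerivAt_const t φ))
    have e1 := hd.comp_hasDerivAt t hline
    have hb : HasDerivAt (fun s => rot (Real.pi / 2) (P.Φ s u)) (fieldX P.U (P.Φ t u)) t :=
      hasDerivAt_rot _ (P.Φ_deriv u t)
    have hf := (P.flow_differentiable y (rot (Real.pi / 2) (P.Φ t u))).hasFDerivAt.comp_hasDerivAt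
      t hb
    have e2 := hasDerivAt_rot (φ - Real.pi / 2) hf
    have e3 := e1.unique e2
    have hHb : fieldX P.U (P.Φ t u) = -fieldH P.U (rot (Real.pi / 2) (P.Φ t u)) := by
      rw [fieldH_rot]
      simp
    rw [e3, hHb, map_neg, P.dH, ← hc, hHc]
    simp only [smul_add, smul_neg, neg_smul, neg_add, smul_smul]
    module
  · have hline : HasDerivAt (fun s : ℝ => ((t, s, φ) : T)) (0, 1, 0) y :=
      (hasDerivAt_const y t).prodMk ((hasDerivAt_id y).prodMk (hasDerivAt_const y φ))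
    have e1 := hd.comp_hasDerivAt y hline
    have e2 := hasDerivAt_rot (φ - Real.pi / 2) (P.Φ_deriv (rot (Real.pi / 2) (P.Φ t u)) y)
    have e3 := e1.unique e2
    rw [e3, ← hc, hXc]
  · have hline : HasDerivAt (fun s : ℝ => ((t, y, s) : T)) (0, 0, 1) φ :=
      (hasDerivAt_const φ t).prodMk ((hasDerivAt_const φ y).prodMk (hasDerivAt_id φ))
    have e1 := hd.comp_hasDerivAt φ hline
    have e2 : HasDerivAt (fun s : ℝ => rot (s - Real.pi / 2) c) (0, 0, 1) φ := by
      have : (fun s : ℝ => rot (s - Real.pi / 2) c)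
          = fun s : ℝ => c + ((0 : ℝ), (0 : ℝ), s - Real.pi / 2) := by
        funext s
        exact rot_eq_add _ _
      rw [this]
      exact ((hasDerivAt_const φ (0 : ℝ)).prodMk ((hasDerivAt_const φ (0 : ℝ)).prodMk
        ((hasDerivAt_id φ).sub_const _))).const_add c
    exact e1.unique e2

end H65.Flat
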