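import Pool.Agent.H16.Flat.ChartA
import Pool.Agent.H65.Flat.ODE

/-! # Fermi charts, part B: global inverse (helper16) -/

namespace H65.Flat

open MeasureTheory Set Filter

variable (P : Pre2)

/-- `X`-component of the vector `w` at `d` -/
noncomputable def coA (U : ℝ × ℝ → ℝ) (d w : T) : ℝ :=
  Real.exp (U (bp d)) * (Real.exp (-d.2.1) * w.1 * Real.cos d.2.2 + w.2.1 * Real.sin d.2.2)

/-- `H`-component of the vector `w` at `d` -/
noncomputable def coB (U : ℝ × ℝ → ℝ) (d w : T) : ℝ :=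
  Real.exp (U (bp d)) * (-(Real.exp (-d.2.1) * w.1) * Real.sin d.2.2 + w.2.1 * Real.cos d.2.2)

/-- `V`-component of the vector `w` at `d` -/
noncomputable def coC (U : ℝ × ℝ → ℝ) (d w : T) : ℝ :=
  w.2.2 - coA U d w * (fieldX U d).2.2 - coB U d w * (fieldH U d).2.2

theorem frame_decomp (U : ℝ × ℝ → ℝ) (d w : T) :
    coA U d w • fieldX U d + coB U d w • fieldH U d + coC U d w • fieldV = w := by
  obtain ⟨x, s, ψ⟩ := d
  obtain ⟨w1, w2, w3⟩ := w
  have hcs : Real.cos ψ ^ 2 + Real.sin ψ ^ 2 = 1 := Real.cos_sq_add_sin_sq ψ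
  have e1 : Real.exp (U (x, s)) * Real.exp (-s) * Real.exp (s - U (x, s)) = 1 := by
    rw [← Real.exp_add, ← Real.exp_add]
    have : U (x, s) + -s + (s - U (x, s)) = 0 := by ring
    rw [this, Real.exp_zero]
  have e2 : Real.exp (U (x, s)) * Real.exp (-U (x, s)) = 1 := by
    rw [← Real.exp_add]
    have : U (x, s) + -U (x, s) = 0 := by ring
    rw [this, Real.exp_zero]
  have e3 : Real.exp (-s) * Real.exp (s - U (x, s)) = Real.exp (-U (x, s)) := by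
    rw [← Real.exp_add]
    congr 1
    ring
  ext
  · simp only [coA, coB, coC, fieldX, fieldH, fieldV, bp, Prod.fst_add, Prod.smul_fst, smul_eq_mul,
      mul_zero, add_zero]
    have : Real.exp (U (x, s)) * (Real.exp (-s) * w1 * Real.cos ψ + w2 * Real.sin ψ)
          * (Real.exp (s - U (x, s)) * Real.cos ψ)
        + Real.exp (U (x, s)) * (-(Real.exp (-s) * w1) * Real.sin ψ + w2 * Real.cos ψ)
          * (-Real.exp (s - U (x, s)) * Real.sin ψ)
        = (Real.exp (U (x, s)) * Real.exp (-s) * Real.exp (s - U (x, s)))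
            * (Real.cos ψ ^ 2 + Real.sin ψ ^ 2) * w1 := by ring
    rw [this, e1, hcs]
    ring
  · simp only [coA, coB, coC, fieldX, fieldH, fieldV, bp, Prod.fst_add, Prod.snd_add,
      Prod.smul_fst, Prod.smul_snd, smul_eq_mul, mul_zero, add_zero]
    have : Real.exp (U (x, s)) * (Real.exp (-s) * w1 * Real.cos ψ + w2 * Real.sin ψ)
          * (Real.exp (-U (x, s)) * Real.sin ψ)
        + Real.exp (U (x, s)) * (-(Real.exp (-s) * w1) * Real.sin ψ + w2 * Real.cos ψ)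
          * (Real.exp (-U (x, s)) * Real.cos ψ)
        = (Real.exp (U (x, s)) * Real.exp (-U (x, s)))
            * (Real.cos ψ ^ 2 + Real.sin ψ ^ 2) * w2 := by ring
    rw [this, e2, hcs]
    ring
  · simp only [coC, fieldV, Prod.snd_add, Prod.smul_snd, smul_eq_mul, mul_one]
    ring

/-- first component of the lifted vector -/
noncomputable def q1 (u p w : T) : ℝ :=
  (coA P.U (Psi P.Φ u p) w * Real.cos p.2.2 - coB P.U (Psi P.Φ u p) w * Real.sin p.2.2)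
    / P.J (rot (Real.pi / 2) (P.Φ p.1 u)) p.2.1

/-- the vector `DΨ_u(p)⁻¹ w` -/
noncomputable def lift (u p w : T) : T :=
  (q1 P u p w,
    coA P.U (Psi P.Φ u p) w * Real.sin p.2.2 + coB P.U (Psi P.Φ u p) w * Real.cos p.2.2,
    coC P.U (Psi P.Φ u p) w + P.J1 (rot (Real.pi / 2) (P.Φ p.1 u)) p.2.1 * q1 P u p w)

theorem fderiv_psi_apply (u p : T) (q : T) :
    fderiv ℝ (Psi P.Φ u) p q = (q.1 * (P.J (rot (Real.pi / 2) (P.Φ p.1 u)) p.2.1)
        * Real.cos p.2.2 + q.2.1 * Real.sin p.2.2) • fieldX P.U (Psi P.Φ u p)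
      + (-q.1 * (P.J (rot (Real.pi / 2) (P.Φ p.1 u)) p.2.1)
        * Real.sin p.2.2 + q.2.1 * Real.cos p.2.2) • fieldH P.U (Psi P.Φ u p)
      + (q.2.2 - P.J1 (rot (Real.pi / 2) (P.Φ p.1 u)) p.2.1 * q.1) • fieldV := by
  obtain ⟨_, h1, h2, h3⟩ := P.psi_hasFDerivAt u p
  have hq : q = q.1 • ((1, 0, 0) : T) + q.2.1 • ((0, 1, 0) : T) + q.2.2 • ((0, 0, 1) : T) := by
    ext <;> simp
  have : fderiv ℝ (Psi P.Φ u) p q = q.1 • fderiv ℝ (Psi P.Φ u) p (1, 0, 0)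
      + q.2.1 • fderiv ℝ (Psi P.Φ u) p (0, 1, 0) + q.2.2 • fderiv ℝ (Psi P.Φ u) p (0, 0, 1) := by
    conv_lhs => rw [hq]
    simp only [map_add, map_smul]
  rw [this, h1, h2, h3]
  module

theorem fderiv_psi_lift (hK : ∀ p, curv P.U p ≤ 0) (u p w : T) :
    fderiv ℝ (Psi P.Φ u) p (lift P u p w) = w := by
  have hJ : P.J (rot (Real.pi / 2) (P.Φ p.1 u)) p.2.1 ≠ 0 := by
    have := P.one_le_J hK (rot (Real.pi / 2) (P.Φ p.1 u)) p.2.1
    intro h
    rw [h] at this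
    norm_num at this
  have hq : q1 P u p w * P.J (rot (Real.pi / 2) (P.Φ p.1 u)) p.2.1
      = coA P.U (Psi P.Φ u p) w * Real.cos p.2.2 - coB P.U (Psi P.Φ u p) w * Real.sin p.2.2 := by
    unfold q1
    field_simp
  rw [fderiv_psi_apply]
  conv_rhs => rw [← frame_decomp P.U (Psi P.Φ u p) w]
  have hcs : Real.cos p.2.2 ^ 2 + Real.sin p.2.2 ^ 2 = 1 := Real.cos_sq_add_sin_sq p.2.2
  congr 2
  · congr 1
    · simp only [lift]
      rw [hq]
      linear_combination coA P.U (Psi P.Φ u p) w * hcs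
  · congr 1
    simp only [lift]
    rw [neg_mul, hq]
    linear_combination coB P.U (Psi P.Φ u p) w * hcs
  · simp only [lift]
    ring

theorem fderiv_psi_injective (hK : ∀ p, curv P.U p ≤ 0) (u p : T) :
    Function.Injective (fderiv ℝ (Psi P.Φ u) p) := by
  have hs : Function.Surjective (fderiv ℝ (Psi P.Φ u) p : T →ₗ[ℝ] T) :=
    fun w => ⟨lift P u p w, fderiv_psi_lift P hK u p w⟩
  exact LinearMap.injective_iff_surjective.2 hs

theorem lift_fderiv_psi (hK : ∀ p, curv P.U p ≤ 0) (u p q : T) :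
    lift P u p (fderiv ℝ (Psi P.Φ u) p q) = q :=
  fderiv_psi_injective P hK u p (fderiv_psi_lift P hK u p _)

theorem J_smooth3 : ContDiff ℝ (⊤ : ℕ∞)
    fun z : T × T × T => P.J (rot (Real.pi / 2) (P.Φ z.2.1.1 z.1)) z.2.1.2.1 := by
  have a1 : ContDiff ℝ (⊤ : ℕ∞) fun z : T × T × T => P.Φ z.2.1.1 z.1 :=
    P.Φ_smooth.comp (f := fun z : T × T × T => (z.2.1.1, z.1)) (by fun_prop)
  have a2 : ContDiff ℝ (⊤ : ℕ∞) fun z : T × T × T => rot (Real.pi / 2) (P.Φ z.2.1.1 z.1) :=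
    rot_smooth.comp (f := fun z : T × T × T => (Real.pi / 2, P.Φ z.2.1.1 z.1)) (by fun_prop)
  exact P.J_smooth.comp (f := fun z : T × T × T =>
    (rot (Real.pi / 2) (P.Φ z.2.1.1 z.1), z.2.1.2.1)) (by fun_prop)

theorem J1_smooth3 : ContDiff ℝ (⊤ : ℕ∞)
    fun z : T × T × T => P.J1 (rot (Real.pi / 2) (P.Φ z.2.1.1 z.1)) z.2.1.2.1 := by
  have a1 : ContDiff ℝ (⊤ : ℕ∞) fun z : T × T × T => P.Φ z.2.1.1 z.1 :=
    P.Φ_smooth.comp (f := fun z : T × T × T => (z.2.1.1, z.1)) (by fun_prop)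
  have a2 : ContDiff ℝ (⊤ : ℕ∞) fun z : T × T × T => rot (Real.pi / 2) (P.Φ z.2.1.1 z.1) :=
    rot_smooth.comp (f := fun z : T × T × T => (Real.pi / 2, P.Φ z.2.1.1 z.1)) (by fun_prop)
  exact P.J1_smooth.comp (f := fun z : T × T × T =>
    (rot (Real.pi / 2) (P.Φ z.2.1.1 z.1), z.2.1.2.1)) (by fun_prop)

theorem coA_smooth {U : ℝ × ℝ → ℝ} (hU : ContDiff ℝ (⊤ : ℕ∞) U) :
    ContDiff ℝ (⊤ : ℕ∞) fun z : T × T => coA U z.1 z.2 := by
  unfold coA
  fun_prop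

theorem coB_smooth {U : ℝ × ℝ → ℝ} (hU : ContDiff ℝ (⊤ : ℕ∞) U) :
    ContDiff ℝ (⊤ : ℕ∞) fun z : T × T => coB U z.1 z.2 := by
  unfold coB
  fun_prop

theorem coC_smooth {U : ℝ × ℝ → ℝ} (hU : ContDiff ℝ (⊤ : ℕ∞) U) :
    ContDiff ℝ (⊤ : ℕ∞) fun z : T × T => coC U z.1 z.2 := by
  have h1 := coA_smooth hU
  have h2 := coB_smooth hU
  have h3 : ContDiff ℝ (⊤ : ℕ∞) fun z : T × T => (fieldX U z.1).2.2 :=
    ((fieldX_smooth hU).comp contDiff_fst).snd.snd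
  have h4 : ContDiff ℝ (⊤ : ℕ∞) fun z : T × T => (fieldH U z.1).2.2 :=
    ((fieldH_smooth hU).comp contDiff_fst).snd.snd
  unfold coC
  exact ((contDiff_snd.snd.snd).sub (h1.mul h3)).sub (h2.mul h4)

theorem lift_smooth (hK : ∀ p, curv P.U p ≤ 0) :
    ContDiff ℝ (⊤ : ℕ∞) fun z : T × T × T => lift P z.1 z.2.1 z.2.2 := by
  have hJ : ∀ z : T × T × T, P.J (rot (Real.pi / 2) (P.Φ z.2.1.1 z.1)) z.2.1.2.1 ≠ 0 := by
    intro z h
    have := P.one_le_J hK (rot (Real.pi / 2) (P.Φ z.2.1.1 z.1)) z.2.1.2.1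
    rw [h] at this
    norm_num at this
  have hpsi : ContDiff ℝ (⊤ : ℕ∞) fun z : T × T × T => Psi P.Φ z.1 z.2.1 :=
    P.psi_smooth.comp (f := fun z : T × T × T => (z.1, z.2.1)) (by fun_prop)
  have hA : ContDiff ℝ (⊤ : ℕ∞) fun z : T × T × T => coA P.U (Psi P.Φ z.1 z.2.1) z.2.2 :=
    (coA_smooth P.U_smooth).comp (f := fun z : T × T × T => (Psi P.Φ z.1 z.2.1, z.2.2))
      (by fun_prop)
  have hB : ContDiff ℝ (⊤ : ℕ∞) fun z : T × T × T => coB P.U (Psi P.Φ z.1 z.2.1) z.2.2 :=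
    (coB_smooth P.U_smooth).comp (f := fun z : T × T × T => (Psi P.Φ z.1 z.2.1, z.2.2))
      (by fun_prop)
  have hC : ContDiff ℝ (⊤ : ℕ∞) fun z : T × T × T => coC P.U (Psi P.Φ z.1 z.2.1) z.2.2 :=
    (coC_smooth P.U_smooth).comp (f := fun z : T × T × T => (Psi P.Φ z.1 z.2.1, z.2.2))
      (by fun_prop)
  have hJs := J_smooth3 P
  have hJ1s := J1_smooth3 P
  have hq : ContDiff ℝ (⊤ : ℕ∞) fun z : T × T × T => q1 P z.1 z.2.1 z.2.2 := by
    unfold q1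
    apply ContDiff.div _ hJs hJ
    apply ContDiff.sub
    · exact hA.mul (by fun_prop)
    · exact hB.mul (by fun_prop)
  unfold lift
  apply ContDiff.prodMk hq
  apply ContDiff.prodMk
  · apply ContDiff.add
    · exact hA.mul (by fun_prop)
    · exact hB.mul (by fun_prop)
  · exact hC.add (hJ1s.mul hq)

end H65.Flat
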