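import Pool.Agent.H16.Flat.ChartB

/-! # Fermi charts, part C: completeness of the lifting field, global inverse (helper16) -/

namespace H65.Flat

open MeasureTheory Set Filter

variable (P : Pre2)

/-- the lifting field on `T × T × T` -/
noncomputable def liftField (z : T × T × T) : T × T × T := (0, lift P z.1 z.2.1 z.2.2, 0)

theorem liftField_smooth (hK : ∀ p, curv P.U p ≤ 0) : ContDiff ℝ (⊤ : ℕ∞) (liftField P) :=
  contDiff_const.prodMk ((lift_smooth P hK).prodMk contDiff_const)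

theorem exists_bound_ball {E : Type*} [NormedAddCommGroup E] [ProperSpace E] {f : E → ℝ}
    (hf : Continuous f) (R : ℝ) : ∃ C, 0 ≤ C ∧ ∀ x, ‖x‖ ≤ R → |f x| ≤ C := by
  obtain ⟨C, hC⟩ := (isCompact_closedBall (0 : E) R).exists_bound_of_continuousOn hf.continuousOn
  exact ⟨max C 0, le_max_right _ _, fun x hx => (hC x (by simpa using hx)).trans (le_max_left _ _)⟩

theorem dfst {E F : Type*} [NormedAddCommGroup E] [NormedSpace ℝ E] [NormedAddCommGroup F]
    [NormedSpace ℝ F] {f : ℝ → E × F} {f' : E × F} {t : ℝ} (h : HasDerivAt f f' t) :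
    HasDerivAt (fun t => (f t).1) f'.1 t :=
  (ContinuousLinearMap.fst ℝ E F).hasFDerivAt.comp_hasDerivAt t h

theorem dsnd {E F : Type*} [NormedAddCommGroup E] [NormedSpace ℝ E] [NormedAddCommGroup F]
    [NormedSpace ℝ F] {f : ℝ → E × F} {f' : E × F} {t : ℝ} (h : HasDerivAt f f' t) :
    HasDerivAt (fun t => (f t).2) f'.2 t :=
  (ContinuousLinearMap.snd ℝ E F).hasFDerivAt.comp_hasDerivAt t h

/-- mean value bound from time `0` -/
theorem norm_sub_le_of_deriv {E : Type*} [NormedAddCommGroup E] [NormedSpace ℝ E] {f f' : ℝ → E}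
    {S C : ℝ} (h : ∀ t, |t| ≤ S → HasDerivAt f (f' t) t) (hC : ∀ t, |t| ≤ S → ‖f' t‖ ≤ C)
    (t : ℝ) (ht : |t| ≤ S) : ‖f t - f 0‖ ≤ C * |S| := by
  have hS : 0 ≤ S := (abs_nonneg t).trans ht
  have h0 : ‖f' 0‖ ≤ C := hC 0 (by simpa using hS)
  have hCn : 0 ≤ C := (norm_nonneg _).trans h0
  have := (convex_Icc (-S) S).norm_image_sub_le_of_norm_hasDerivWithin_le (f := f) (f' := f')
    (C := C) (x := 0) (y := t) (fun x hx => (h x (abs_le.2 hx)).hasDerivWithinAt)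
    (fun x hx => hC x (abs_le.2 hx)) (by constructor <;> linarith) (abs_le.1 ht)
  refine this.trans ?_
  rw [sub_zero, Real.norm_eq_abs, abs_of_nonneg hS]
  exact mul_le_mul_of_nonneg_left ht hCn

theorem abs_le_of_deriv {f g a : ℝ → ℝ} {S C r : ℝ} (ha : ∀ t, 0 ≤ a t ∧ a t ≤ 1)
    (h : ∀ t, |t| ≤ S → HasDerivAt f (a t * g t) t) (hC : ∀ t, |t| ≤ S → |g t| ≤ C)
    (h0 : |f 0| ≤ r) (t : ℝ) (ht : |t| ≤ S) : |f t| ≤ r + C * |S| := by
  have h1 := norm_sub_le_of_deriv h (C := C) (fun t ht => by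
    rw [Real.norm_eq_abs, abs_mul, abs_of_nonneg (ha t).1]
    calc a t * |g t| ≤ 1 * |g t| := mul_le_mul_of_nonneg_right (ha t).2 (abs_nonneg _)
      _ = |g t| := one_mul _
      _ ≤ C := hC t ht) t ht
  rw [Real.norm_eq_abs] at h1
  have h2 : |f t| ≤ |f t - f 0| + |f 0| := by
    have := abs_add_le (f t - f 0) (f 0)
    simpa using this
  linarith

theorem abs_comb_le {A B c s CA CB : ℝ} (hA : |A| ≤ CA) (hB : |B| ≤ CB) (hc : |c| ≤ 1)
    (hs : |s| ≤ 1) : |A * c - B * s| ≤ CA + CB := by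
  have h1 : |A * c| ≤ CA := by
    rw [abs_mul]
    calc |A| * |c| ≤ |A| * 1 := mul_le_mul_of_nonneg_left hc (abs_nonneg _)
      _ = |A| := mul_one _
      _ ≤ CA := hA
  have h2 : |B * s| ≤ CB := by
    rw [abs_mul]
    calc |B| * |s| ≤ |B| * 1 := mul_le_mul_of_nonneg_left hs (abs_nonneg _)
      _ = |B| := mul_one _
      _ ≤ CB := hB
  calc |A * c - B * s| ≤ |A * c| + |B * s| := abs_sub _ _
    _ ≤ CA + CB := add_le_add h1 h2

theorem liftField_tame (hK : ∀ p, curv P.U p ≤ 0) : ODE.Tame (liftField P) := by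
  intro r S
  obtain ⟨M0, hM0, hM⟩ := exists_bound_ball (f := fun q : T × T => ‖Psi P.Φ q.1 q.2‖)
    P.psi_smooth.continuous.norm r
  obtain ⟨CA, hCA0, hCA⟩ := exists_bound_ball (coA_smooth P.U_smooth).continuous
    (max (M0 + r * |S|) r)
  obtain ⟨CB, hCB0, hCB⟩ := exists_bound_ball (coB_smooth P.U_smooth).continuous
    (max (M0 + r * |S|) r)
  obtain ⟨CC, hCC0, hCC⟩ := exists_bound_ball (coC_smooth P.U_smooth).continuous
    (max (M0 + r * |S|) r)
  obtain ⟨CJ, hCJ0, hCJ⟩ := exists_bound_ball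
    (f := fun z : T × ℝ × ℝ => P.J1 (rot (Real.pi / 2) (P.Φ z.2.1 z.1)) z.2.2)
    ((J1_smooth3 P).continuous.comp
      (f := fun z : T × ℝ × ℝ => ((z.1, ((z.2.1, z.2.2, 0) : T), (0 : T)) : T × T × T))
      (by fun_prop)) (r + (CA + CB) * |S|)
  refine ⟨r + (CA + CB + CC + CJ * (CA + CB)) * |S|, ?_⟩
  intro a γ ha h0 hγ
  have hr : 0 ≤ r := (norm_nonneg _).trans h0
  have h1 : ∀ t, |t| ≤ S → HasDerivAt (fun t => (γ t).1) (0 : T) t := by
    intro t ht
    exact (dfst (hγ t ht)).congr_deriv (by simp [liftField])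
  have h3 : ∀ t, |t| ≤ S → HasDerivAt (fun t => (γ t).2.2) (0 : T) t := by
    intro t ht
    exact (dsnd (dsnd (hγ t ht))).congr_deriv (by simp [liftField])
  have h2 : ∀ t, |t| ≤ S →
      HasDerivAt (fun t => (γ t).2.1) (a t • lift P (γ t).1 (γ t).2.1 (γ t).2.2) t := by
    intro t ht
    exact (dfst (dsnd (hγ t ht))).congr_deriv (by simp [liftField])
  have c1 : ∀ t, |t| ≤ S → (γ t).1 = (γ 0).1 := by
    intro t ht
    have := norm_sub_le_of_deriv h1 (C := 0) (fun t ht => by simp) t ht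
    rw [zero_mul] at this
    exact sub_eq_zero.1 (norm_le_zero_iff.1 this)
  have c3 : ∀ t, |t| ≤ S → (γ t).2.2 = (γ 0).2.2 := by
    intro t ht
    have := norm_sub_le_of_deriv h3 (C := 0) (fun t ht => by simp) t ht
    rw [zero_mul] at this
    exact sub_eq_zero.1 (norm_le_zero_iff.1 this)
  obtain ⟨b1, b23⟩ := norm_prod_le_iff.1 h0
  obtain ⟨b2, b3⟩ := norm_prod_le_iff.1 b23
  generalize hu : (γ 0).1 = u at *
  generalize hw : (γ 0).2.2 = w at *
  set p : ℝ → T := fun t => (γ t).2.1 with hp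
  have h2' : ∀ t, |t| ≤ S → HasDerivAt p (a t • lift P u (p t) w) t := by
    intro t ht
    have := h2 t ht
    rwa [c1 t ht, c3 t ht] at this
  have b2' : ‖p 0‖ ≤ r := b2
  have hΨ : ∀ t, |t| ≤ S → ‖Psi P.Φ u (p t)‖ ≤ M0 + r * |S| := by
    intro t ht
    have hd : ∀ t, |t| ≤ S → HasDerivAt (fun t => Psi P.Φ u (p t)) (a t • w) t := by
      intro t ht
      have := (P.psi_hasFDerivAt u (p t)).1.comp_hasDerivAt t (h2' t ht)
      rw [map_smul, fderiv_psi_lift P hK] at this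
      exact this
    have h5 := norm_sub_le_of_deriv hd (C := r) (fun t ht => by
      rw [norm_smul, Real.norm_eq_abs, abs_of_nonneg (ha t).1]
      calc a t * ‖w‖ ≤ 1 * ‖w‖ := mul_le_mul_of_nonneg_right (ha t).2 (norm_nonneg _)
        _ = ‖w‖ := one_mul _
        _ ≤ r := b3) t ht
    have h6 : ‖Psi P.Φ u (p 0)‖ ≤ M0 := by
      have := hM (u, p 0) (norm_prod_le_iff.2 ⟨b1, b2'⟩)
      simpa using this
    have h7 : ‖Psi P.Φ u (p t)‖ ≤ ‖Psi P.Φ u (p t) - Psi P.Φ u (p 0)‖ + ‖Psi P.Φ u (p 0)‖ := by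
      have := norm_add_le (Psi P.Φ u (p t) - Psi P.Φ u (p 0)) (Psi P.Φ u (p 0))
      simpa using this
    linarith
  have hdw : ∀ t, |t| ≤ S → ‖((Psi P.Φ u (p t), w) : T × T)‖ ≤ max (M0 + r * |S|) r :=
    fun t ht => norm_prod_le_iff.2 ⟨(hΨ t ht).trans (le_max_left _ _), b3.trans (le_max_right _ _)⟩
  have hA : ∀ t, |t| ≤ S → |coA P.U (Psi P.Φ u (p t)) w| ≤ CA := fun t ht => hCA _ (hdw t ht)
  have hB : ∀ t, |t| ≤ S → |coB P.U (Psi P.Φ u (p t)) w| ≤ CB := fun t ht => hCB _ (hdw t ht)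
  have hC : ∀ t, |t| ≤ S → |coC P.U (Psi P.Φ u (p t)) w| ≤ CC := fun t ht => hCC _ (hdw t ht)
  have hq1 : ∀ t, |t| ≤ S → |q1 P u (p t) w| ≤ CA + CB := by
    intro t ht
    have hJ := P.one_le_J hK (rot (Real.pi / 2) (P.Φ (p t).1 u)) (p t).2.1
    have hn := abs_comb_le (hA t ht) (hB t ht) (Real.abs_cos_le_one (p t).2.2)
      (Real.abs_sin_le_one (p t).2.2)
    unfold q1
    rw [abs_div, abs_of_nonneg (zero_le_one.trans hJ)]
    exact (div_le_self (abs_nonneg _) hJ).trans hn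
  obtain ⟨bp1, bp23⟩ := norm_prod_le_iff.1 b2'
  obtain ⟨bp2, bp3⟩ := norm_prod_le_iff.1 bp23
  have d1 : ∀ t, |t| ≤ S → HasDerivAt (fun t => (p t).1) (a t * q1 P u (p t) w) t := by
    intro t ht
    exact (dfst (h2' t ht)).congr_deriv (by simp [lift])
  have d2 : ∀ t, |t| ≤ S → HasDerivAt (fun t => (p t).2.1)
      (a t * (coA P.U (Psi P.Φ u (p t)) w * Real.sin (p t).2.2
        + coB P.U (Psi P.Φ u (p t)) w * Real.cos (p t).2.2)) t := by
    intro t ht
    exact (dfst (dsnd (h2' t ht))).congr_deriv (by simp [lift])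
  have d3 : ∀ t, |t| ≤ S → HasDerivAt (fun t => (p t).2.2)
      (a t * (coC P.U (Psi P.Φ u (p t)) w
        + P.J1 (rot (Real.pi / 2) (P.Φ (p t).1 u)) (p t).2.1 * q1 P u (p t) w)) t := by
    intro t ht
    exact (dsnd (dsnd (h2' t ht))).congr_deriv (by simp [lift])
  have f1 := abs_le_of_deriv ha d1 hq1 (r := r) bp1
  have f2 := abs_le_of_deriv ha d2 (C := CA + CB) (r := r) (fun t ht => by
    have := abs_comb_le (hA t ht) (B := -coB P.U (Psi P.Φ u (p t)) w) (CB := CB)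
      (by rw [abs_neg]; exact hB t ht) (Real.abs_sin_le_one (p t).2.2)
      (Real.abs_cos_le_one (p t).2.2)
    simpa using this) bp2
  have hJ1 : ∀ t, |t| ≤ S → |P.J1 (rot (Real.pi / 2) (P.Φ (p t).1 u)) (p t).2.1| ≤ CJ := by
    intro t ht
    apply hCJ (u, (p t).1, (p t).2.1)
    have hle : r ≤ r + (CA + CB) * |S| := by
      have : 0 ≤ (CA + CB) * |S| := by positivity
      linarith
    exact norm_prod_le_iff.2 ⟨b1.trans hle, norm_prod_le_iff.2 ⟨f1 t ht, f2 t ht⟩⟩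
  have f3 := abs_le_of_deriv ha d3 (C := CC + CJ * (CA + CB)) (r := r) (fun t ht => by
    calc _ ≤ |coC P.U (Psi P.Φ u (p t)) w|
          + |P.J1 (rot (Real.pi / 2) (P.Φ (p t).1 u)) (p t).2.1 * q1 P u (p t) w| := abs_add_le _ _
      _ ≤ CC + CJ * (CA + CB) := by
          apply add_le_add (hC t ht)
          rw [abs_mul]
          exact mul_le_mul (hJ1 t ht) (hq1 t ht) (abs_nonneg _) hCJ0) bp3
  intro t ht
  have hbig : ∀ x : ℝ, x ≤ CA + CB + CC + CJ * (CA + CB) → r + x * |S|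
      ≤ r + (CA + CB + CC + CJ * (CA + CB)) * |S| := by
    intro x hx
    have := mul_le_mul_of_nonneg_right hx (abs_nonneg S)
    linarith
  have hJAB : 0 ≤ CJ * (CA + CB) := by positivity
  have hr' : r ≤ r + (CA + CB + CC + CJ * (CA + CB)) * |S| := by
    have := hbig 0 (by positivity)
    simpa using this
  refine norm_prod_le_iff.2 ⟨?_, norm_prod_le_iff.2 ⟨?_, ?_⟩⟩
  · rw [c1 t ht]
    exact b1.trans hr'
  · refine norm_prod_le_iff.2 ⟨?_, norm_prod_le_iff.2 ⟨?_, ?_⟩⟩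
    · exact (f1 t ht).trans (hbig _ (by linarith))
    · exact (f2 t ht).trans (hbig _ (by linarith))
    · exact (f3 t ht).trans (hbig _ (by linarith))
  · rw [c3 t ht]
    exact b3.trans hr'

end H65.Flat
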