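import Pool.Agent.H16.Flat.ChartC
import Pool.Agent.H66.Flat.VolChart

/-! # Fermi charts, part D: global inverse, geodesics in the chart, volume (helper16) -/

namespace H65.Flat

open MeasureTheory Set Filter

variable (P : Pre2)

/-- a function with zero derivative -/
theorem const_of_deriv_zero {E : Type*} [NormedAddCommGroup E] [NormedSpace ℝ E] {f : ℝ → E}
    (h : ∀ t, HasDerivAt f 0 t) (t : ℝ) : f t = f 0 := by
  have := norm_sub_le_of_deriv (S := |t|) (C := 0) (fun s _ => h s) (fun s _ => by simp) t le_rfl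
  rw [zero_mul] at this
  exact sub_eq_zero.1 (norm_le_zero_iff.1 this)

/-- global inverse of the Fermi charts -/
theorem Pre2.exists_inv (hK : ∀ p, curv P.U p ≤ 0) : ∃ inv : T → T → T,
    (∀ u p, inv u (Psi P.Φ u p) = p) ∧ (∀ u v, Psi P.Φ u (inv u v) = v) ∧
    ContDiff ℝ (⊤ : ℕ∞) fun q : T × T => inv q.1 q.2 := by
  have hs := liftField_smooth P hK
  have ht := liftField_tame P hK
  obtain ⟨Θ, hΘ0, hΘ⟩ := ODE.exists_flow (hs.of_le (by simp)) ht
  have hΘs := ODE.contDiff_flow hs ht hΘ0 hΘ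
  have c1 : ∀ z t, (Θ t z).1 = z.1 := by
    intro z t
    have h1 : ∀ t, HasDerivAt (fun t => (Θ t z).1) (0 : T) t := fun t =>
      (dfst (hΘ z t)).congr_deriv (by simp [liftField])
    have := const_of_deriv_zero h1 t
    rw [this, hΘ0]
  have c3 : ∀ z t, (Θ t z).2.2 = z.2.2 := by
    intro z t
    have h1 : ∀ t, HasDerivAt (fun t => (Θ t z).2.2) (0 : T) t := fun t =>
      (dsnd (dsnd (hΘ z t))).congr_deriv (by simp [liftField])
    have := const_of_deriv_zero h1 t
    rw [this, hΘ0]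
  have c2 : ∀ z t, HasDerivAt (fun t => (Θ t z).2.1) (lift P z.1 (Θ t z).2.1 z.2.2) t := by
    intro z t
    refine (dfst (dsnd (hΘ z t))).congr_deriv ?_
    simp only [liftField]
    rw [c1, c3]
  have hpsi : ∀ z t, Psi P.Φ z.1 (Θ t z).2.1 = Psi P.Φ z.1 z.2.1 + t • z.2.2 := by
    intro z t
    have h1 : ∀ t, HasDerivAt (fun t => Psi P.Φ z.1 (Θ t z).2.1 - t • z.2.2) (0 : T) t := by
      intro t
      have h2 := (P.psi_hasFDerivAt z.1 (Θ t z).2.1).1.comp_hasDerivAt t (c2 z t)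
      rw [fderiv_psi_lift P hK] at h2
      have h3 : HasDerivAt (fun t : ℝ => t • z.2.2) ((1 : ℝ) • z.2.2) t :=
        (hasDerivAt_id t).smul_const z.2.2
      have h4 := h2.sub h3
      rw [one_smul, sub_self] at h4
      exact h4
    have := const_of_deriv_zero h1 t
    simp only [zero_smul, sub_zero, hΘ0] at this
    rw [← this]
    simp
  -- the candidate for the inverse
  have hright : ∀ u p v, Psi P.Φ u (Θ 1 (u, p, v - Psi P.Φ u p)).2.1 = v := by
    intro u p v
    have := hpsi (u, p, v - Psi P.Φ u p) 1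
    simp only [one_smul] at this
    rw [this]
    abel
  have hfix : ∀ u p, (Θ 1 (u, p, 0)).2.1 = p := by
    intro u p
    have h1 : ∀ t, HasDerivAt (fun t => (Θ t (u, p, (0 : T))).2.1) (0 : T) t := by
      intro t
      refine (c2 (u, p, 0) t).congr_deriv ?_
      have h5 := lift_fderiv_psi P hK u (Θ t (u, p, 0)).2.1 0
      rw [map_zero] at h5
      exact h5
    have := const_of_deriv_zero h1 1
    rw [this, hΘ0]
  have hΘ1 : ContDiff ℝ (⊤ : ℕ∞) (Θ 1) :=
    hΘs.comp (f := fun z : T × T × T => ((1 : ℝ), z)) (by fun_prop)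
  have hinj : ∀ u, Function.Injective (Psi P.Φ u) := by
    intro u p q hpq
    set v := Psi P.Φ u p with hv
    set h : T → T := fun p => (Θ 1 (u, p, v - Psi P.Φ u p)).2.1 with hh
    have hps : ContDiff ℝ (⊤ : ℕ∞) (Psi P.Φ u) := P.psi_smooth' u
    have hhs : ContDiff ℝ (⊤ : ℕ∞) h := by
      have : ContDiff ℝ (⊤ : ℕ∞) fun p : T => Θ 1 (u, p, v - Psi P.Φ u p) :=
        hΘ1.comp (f := fun p : T => (u, p, v - Psi P.Φ u p))
          (contDiff_const.prodMk (contDiff_id.prodMk (contDiff_const.sub hps)))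
      exact this.snd.fst
    have hdiff : Differentiable ℝ h := hhs.differentiable (by simp)
    have hzero : ∀ x, fderiv ℝ h x = 0 := by
      intro x
      have e1 : HasFDerivAt (fun p => Psi P.Φ u (h p)) ((fderiv ℝ (Psi P.Φ u) (h x)).comp
          (fderiv ℝ h x)) x := (P.psi_hasFDerivAt u (h x)).1.comp x (hdiff x).hasFDerivAt
      have e2 : (fun p => Psi P.Φ u (h p)) = fun _ => v := by
        funext p
        exact hright u p v
      rw [e2] at e1
      have e3 := e1.unique (hasFDerivAt_const v x)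
      refine ContinuousLinearMap.ext fun w => ?_
      apply fderiv_psi_injective P hK u (h x)
      have := congrArg (fun L : T →L[ℝ] T => L w) e3
      simpa using this
    have hconst := is_const_of_fderiv_eq_zero hdiff hzero p q
    have hp : h p = p := by
      simp only [hh]
      rw [hv, sub_self]
      exact hfix u p
    have hq : h q = q := by
      simp only [hh]
      rw [hpq, sub_self]
      exact hfix u q
    rw [← hp, ← hq]
    exact hconst
  refine ⟨fun u v => (Θ 1 (u, 0, v - Psi P.Φ u 0)).2.1, ?_, ?_, ?_⟩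
  · intro u p
    exact hinj u (hright u 0 _)
  · intro u v
    exact hright u 0 v
  · have h0 : ContDiff ℝ (⊤ : ℕ∞) fun q : T × T => Psi P.Φ q.1 0 :=
      P.psi_smooth.comp (f := fun q : T × T => (q.1, (0 : T))) (by fun_prop)
    have : ContDiff ℝ (⊤ : ℕ∞) fun q : T × T => Θ 1 (q.1, 0, q.2 - Psi P.Φ q.1 0) :=
      hΘ1.comp (f := fun q : T × T => (q.1, (0 : T), q.2 - Psi P.Φ q.1 0))
        (contDiff_fst.prodMk (contDiff_const.prodMk (contDiff_snd.sub h0)))
    exact this.snd.fst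

theorem Pre2.J_ne (hK : ∀ p, curv P.U p ≤ 0) (v : T) (y : ℝ) : P.J v y ≠ 0 := by
  have := P.one_le_J hK v y
  intro h
  rw [h] at this
  norm_num at this

/-- the geodesic field in the chart -/
theorem fderiv_psi_chart (hK : ∀ p, curv P.U p ≤ 0) (u : T) (t y φ : ℝ) :
    fderiv ℝ (Psi P.Φ u) (t, y, φ)
      (Real.cos φ / P.J (rot (Real.pi / 2) (P.Φ t u)) y, Real.sin φ,
        P.J1 (rot (Real.pi / 2) (P.Φ t u)) y / P.J (rot (Real.pi / 2) (P.Φ t u)) y * Real.cos φ)
      = fieldX P.U (Psi P.Φ u (t, y, φ)) := by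
  have hJ := P.J_ne hK (rot (Real.pi / 2) (P.Φ t u)) y
  have hcs : Real.cos φ ^ 2 + Real.sin φ ^ 2 = 1 := Real.cos_sq_add_sin_sq φ
  rw [fderiv_psi_apply]
  simp only
  have e1 : Real.cos φ / P.J (rot (Real.pi / 2) (P.Φ t u)) y
      * P.J (rot (Real.pi / 2) (P.Φ t u)) y * Real.cos φ + Real.sin φ * Real.sin φ = 1 := by
    rw [div_mul_cancel₀ _ hJ]
    linear_combination hcs
  have e2 : -(Real.cos φ / P.J (rot (Real.pi / 2) (P.Φ t u)) y)
      * P.J (rot (Real.pi / 2) (P.Φ t u)) y * Real.sin φ + Real.sin φ * Real.cos φ = 0 := by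
    rw [neg_mul, div_mul_cancel₀ _ hJ]
    ring
  have e3 : P.J1 (rot (Real.pi / 2) (P.Φ t u)) y / P.J (rot (Real.pi / 2) (P.Φ t u)) y
      * Real.cos φ - P.J1 (rot (Real.pi / 2) (P.Φ t u)) y
      * (Real.cos φ / P.J (rot (Real.pi / 2) (P.Φ t u)) y) = 0 := by
    ring
  rw [e1, e2, e3]
  simp

theorem Pre2.chart_unique (hK : ∀ p, curv P.U p ≤ 0) (u : T) (t y φ : ℝ → ℝ)
    (h : ChartSol (fun t y => P.J (rot (Real.pi / 2) (P.Φ t u)) y)
      (fun t y => P.J1 (rot (Real.pi / 2) (P.Φ t u)) y) t y φ) (s : ℝ) :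
    P.Φ s (Psi P.Φ u (t 0, y 0, φ 0)) = Psi P.Φ u (t s, y s, φ s) := by
  have hd : ∀ s, HasDerivAt (fun s => Psi P.Φ u (t s, y s, φ s))
      (fieldX P.U (Psi P.Φ u (t s, y s, φ s))) s := by
    intro s
    obtain ⟨h1, h2, h3⟩ := h s
    have h4 : HasDerivAt (fun s => ((t s, y s, φ s) : T)) _ s := h1.prodMk (h2.prodMk h3)
    have h5 := (P.psi_hasFDerivAt u (t s, y s, φ s)).1.comp_hasDerivAt s h4
    rw [fderiv_psi_chart P hK u (t s) (y s) (φ s)] at h5
    exact h5
  have hX : ContDiff ℝ 1 (fieldX P.U) := (fieldX_smooth P.U_smooth).of_le (by simp)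
  refine ODE.sol_unique hX (t₀ := 0) (a := -|s|) (b := |s|) (by constructor <;> simp)
    (fun r _ => P.Φ_deriv (Psi P.Φ u (t 0, y 0, φ 0)) r) (fun r _ => hd r) ?_ s
    (abs_le.1 le_rfl)
  exact P.Φ_zero _

theorem Pre2.chart_sol (hK : ∀ p, curv P.U p ≤ 0) (u p : T) : ∃ t y φ : ℝ → ℝ, t 0 = p.1 ∧
    y 0 = p.2.1 ∧ φ 0 = p.2.2 ∧
    ChartSol (fun t y => P.J (rot (Real.pi / 2) (P.Φ t u)) y)
      (fun t y => P.J1 (rot (Real.pi / 2) (P.Φ t u)) y) t y φ ∧
    ∀ s, P.Φ s (Psi P.Φ u p) = Psi P.Φ u (t s, y s, φ s) := by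
  obtain ⟨inv, hl, hr, hs⟩ := P.exists_inv hK
  set q : ℝ → T := fun s => inv u (P.Φ s (Psi P.Φ u p)) with hq
  have hinv : Differentiable ℝ (inv u) :=
    (hs.comp (f := fun v : T => (u, v)) (by fun_prop)).differentiable (by simp)
  have hqd : ∀ s, HasDerivAt q (fderiv ℝ (inv u) (P.Φ s (Psi P.Φ u p))
      (fieldX P.U (P.Φ s (Psi P.Φ u p)))) s := fun s =>
    (hinv _).hasFDerivAt.comp_hasDerivAt s (P.Φ_deriv (Psi P.Φ u p) s)
  have hPq : ∀ s, Psi P.Φ u (q s) = P.Φ s (Psi P.Φ u p) := fun s => hr u _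
  have hq0 : q 0 = p := by
    simp only [hq, P.Φ_zero]
    exact hl u p
  have hval : ∀ s, fderiv ℝ (inv u) (P.Φ s (Psi P.Φ u p)) (fieldX P.U (P.Φ s (Psi P.Φ u p)))
      = (Real.cos (q s).2.2 / P.J (rot (Real.pi / 2) (P.Φ (q s).1 u)) (q s).2.1,
        Real.sin (q s).2.2,
        P.J1 (rot (Real.pi / 2) (P.Φ (q s).1 u)) (q s).2.1
          / P.J (rot (Real.pi / 2) (P.Φ (q s).1 u)) (q s).2.1 * Real.cos (q s).2.2) := by
    intro s
    apply fderiv_psi_injective P hK u (q s)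
    have e1 := (P.psi_hasFDerivAt u (q s)).1.comp_hasDerivAt s (hqd s)
    have e2 : (Psi P.Φ u ∘ q) = fun s => P.Φ s (Psi P.Φ u p) := by
      funext s
      exact hPq s
    rw [e2] at e1
    have e3 := e1.unique (P.Φ_deriv (Psi P.Φ u p) s)
    rw [e3]
    have e4 := fderiv_psi_chart P hK u (q s).1 (q s).2.1 (q s).2.2
    rw [e4, ← hPq s]
  refine ⟨fun s => (q s).1, fun s => (q s).2.1, fun s => (q s).2.2, by simp only [hq0],
    by simp only [hq0], by simp only [hq0], ?_, fun s => (hPq s).symm⟩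
  intro s
  have h := hqd s
  rw [hval s] at h
  exact ⟨dfst h, dfst (dsnd h), dsnd (dsnd h)⟩

theorem Pre2.vol_chart (hK : ∀ p, curv P.U p ≤ 0) (u : T) (A : Set T) (hA : IsOpen A) :
    volume A ≤ liou P.U (Psi P.Φ u '' A) := by
  obtain ⟨inv, hl, hr, hs⟩ := P.exists_inv hK
  have hinv : Continuous (inv u) :=
    hs.continuous.comp (f := fun v : T => (u, v)) (by fun_prop)
  have himg : Psi P.Φ u '' A = inv u ⁻¹' A := by
    ext v
    constructor
    · rintro ⟨a, ha, rfl⟩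
      rw [mem_preimage, hl]
      exact ha
    · intro hv
      exact ⟨inv u v, hv, hr u v⟩
  have hinj : Function.Injective (Psi P.Φ u) := fun a b hab => by
    rw [← hl u a, ← hl u b, hab]
  refine vol_chart_aux P u (P.one_le_J hK) (P.psi_hasFDerivAt u) hinj A hA ?_
  rw [himg]
  exact (hA.preimage hinv).measurableSet

end H65.Flat
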