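import Pool.Agent.H65.Flat.Field

/-! # Algebra and smoothness of the frame `X, H, V` (helper16) -/

namespace H65.Flat

open MeasureTheory Set Filter

theorem bp_rot (a : ℝ) (v : T) : bp (rot a v) = bp v := rfl

theorem rot_eq_add (a : ℝ) (v : T) : rot a v = v + (0, 0, a) := by
  simp only [rot]
  ext <;> simp

theorem rot_rot (a b : ℝ) (v : T) : rot a (rot b v) = rot (a + b) v := by
  simp only [rot]
  ext
  · simp
  · simp
  · simp; ring

theorem rot_zero (v : T) : rot 0 v = v := by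
  simp only [rot]
  ext <;> simp

theorem fieldX_rot (U : ℝ × ℝ → ℝ) (a : ℝ) (v : T) :
    fieldX U (rot a v) = Real.cos a • fieldX U v + Real.sin a • fieldH U v := by
  obtain ⟨x, s, ψ⟩ := v
  simp only [fieldX, fieldH, bp, rot, Real.cos_add, Real.sin_add]
  ext
  · simp; ring
  · simp; ring
  · simp; ring

theorem fieldH_rot (U : ℝ × ℝ → ℝ) (a : ℝ) (v : T) :
    fieldH U (rot a v) = -Real.sin a • fieldX U v + Real.cos a • fieldH U v := by
  obtain ⟨x, s, ψ⟩ := v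
  simp only [fieldX, fieldH, bp, rot, Real.cos_add, Real.sin_add]
  ext
  · simp; ring
  · simp; ring
  · simp; ring

theorem Ux_smooth {U : ℝ × ℝ → ℝ} (hU : ContDiff ℝ (⊤ : ℕ∞) U) : ContDiff ℝ (⊤ : ℕ∞) (Ux U) := by
  have h : ContDiff ℝ (⊤ : ℕ∞) (fderiv ℝ U) := hU.fderiv_right (by simp)
  exact h.clm_apply contDiff_const

theorem Us_smooth {U : ℝ × ℝ → ℝ} (hU : ContDiff ℝ (⊤ : ℕ∞) U) : ContDiff ℝ (⊤ : ℕ∞) (Us U) := by
  have h : ContDiff ℝ (⊤ : ℕ∞) (fderiv ℝ U) := hU.fderiv_right (by simp)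
  exact h.clm_apply contDiff_const

theorem curv_smooth {U : ℝ × ℝ → ℝ} (hU : ContDiff ℝ (⊤ : ℕ∞) U) :
    ContDiff ℝ (⊤ : ℕ∞) (curv U) := by
  have h1 := Ux_smooth hU
  have h2 := Ux_smooth h1
  have h3 := Us_smooth hU
  have h4 := Us_smooth h3
  unfold curv
  fun_prop

@[fun_prop]
theorem bp_smooth : ContDiff ℝ (⊤ : ℕ∞) bp := by
  unfold bp
  fun_prop

theorem fieldX_smooth {U : ℝ × ℝ → ℝ} (hU : ContDiff ℝ (⊤ : ℕ∞) U) :
    ContDiff ℝ (⊤ : ℕ∞) (fieldX U) := by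
  have h1 := Ux_smooth hU
  have h2 := Us_smooth hU
  unfold fieldX
  fun_prop

theorem fieldH_smooth {U : ℝ × ℝ → ℝ} (hU : ContDiff ℝ (⊤ : ℕ∞) U) :
    ContDiff ℝ (⊤ : ℕ∞) (fieldH U) := by
  have h1 := Ux_smooth hU
  have h2 := Us_smooth hU
  unfold fieldH
  fun_prop

theorem rot_smooth : ContDiff ℝ (⊤ : ℕ∞) fun p : ℝ × T => rot p.1 p.2 := by
  unfold rot
  fun_prop

theorem hasDerivAt_rot (a : ℝ) {f : ℝ → T} {f' : T} {t : ℝ} (h : HasDerivAt f f' t) :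
    HasDerivAt (fun t => rot a (f t)) f' t := by
  have : (fun t => rot a (f t)) = fun t => f t + ((0 : ℝ), (0 : ℝ), a) := by
    funext t
    exact rot_eq_add a (f t)
  rw [this]
  exact h.add_const _

end H65.Flat
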